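import Pool.Agent.TH949.TX.STW
import Pool.Agent.W263.BSD.Defs

/-!
# The discrepancy of the Frobenius angles on one sequence of windows and the zeros of all symmetric powers

Akiyama and Tanigawa proved that the bound `D_K = O(K^(ε - 1/2))` for all `K` implies the Riemann hypothesis for
the `L`-function of the curve, and for those of the symmetric powers if they are entire. Here the bound is needed
only for `K` in the windows `[Z^(1-δ), Z]` for an arbitrary sequence `Z → ∞`, `δ > 0` fixed; for the curve itself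
only a lower bound for the number of angles in `[0, w)` is needed. In other words: a zero with real part `> c` of one
of these `L`-functions makes the discrepancy larger than `C K^(c - 1)` for some `K` in EVERY window `[Z^(1-δ), Z]`,
`Z` large, for all `C` and `δ > 0`.
-/

set_option autoImplicit false

namespace Pool.Agent.Results.MP_29be01_nt.SequenceOfWindows

open Pool.Agent.W263.BSD Filter Topology
open Pool.Agent.TH949.TX

/-- `x` is a sequence of Frobenius angles of `y² = x³ + a x + b`: `0 ≤ x_k ≤ 1`, and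
`p + 1 - #E(𝔽_p) = p - N_p = 2 √p cos (π x_k)` for the prime `p` with the number `k` (the primes are numbered from
`0`) if `p ∤ 2Δ`; `x_k = 1/2` for the finitely many other primes. -/
def IsAngles (a b : ℤ) (x : ℕ → ℝ) : Prop :=
  ∀ k : ℕ, 0 ≤ x k ∧ x k ≤ 1 ∧
    (GoodPrime a b (Nat.nth Nat.Prime k) →
      ((Nat.nth Nat.Prime k : ℕ) : ℝ) - pointCount a b (Nat.nth Nat.Prime k) =
        2 * Real.sqrt (Nat.nth Nat.Prime k) * Real.cos (Real.pi * x k)) ∧
    (¬ GoodPrime a b (Nat.nth Nat.Prime k) → x k = 1 / 2)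

/-- The Sato-Tate measure of `[0, w]`. -/
noncomputable def satoTate (w : ℝ) : ℝ := ∫ u in (0 : ℝ)..w, 2 * Real.sin (Real.pi * u) ^ 2

open Classical in
/-- The number of the `k < K` for which `(x_k, ..., x_{k+s-1})` is in the box `[0, w_0) × ... × [0, w_{s-1})`. -/
noncomputable def boxCount (x : ℕ → ℝ) {s : ℕ} (w : Fin s → ℝ) (K : ℕ) : ℕ :=
  ((Finset.range K).filter (fun k => ∀ i : Fin s, x (k + i) < w i)).card

/-- `Φ` is an entire function which for `Re z > 1` is the incomplete `L`-series of the symmetric power `m`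
(normalised so that the critical line is `Re z = 1/2`),
`∏_{p ∤ 2Δ} ∏_{0 ≤ j ≤ m} (1 - e^{i π (m - 2 j) x_k} p^{-z})⁻¹`, `p` the prime with the number `k`. -/
def IsSymLSeries (a b : ℤ) (x : ℕ → ℝ) (m : ℕ) (Φ : ℂ → ℂ) : Prop :=
  Differentiable ℂ Φ ∧ ∀ z : ℂ, 1 < z.re → HasProd (fun p : ℕ => (open Classical in
    if GoodPrime a b p then ∏ j ∈ Finset.range (m + 1),
      (1 - Complex.exp (Complex.I * Real.pi * (m - 2 * j) * x (Nat.count Nat.Prime p)) * (p : ℂ) ^ (-z))⁻¹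
    else 1)) (Φ z)

theorem satoTate_eq (w : ℝ) : satoTate w = sF w := by
  unfold satoTate sF
  have h1 : ∀ u ∈ Set.uIcc 0 w, HasDerivAt (fun u : ℝ => u - Real.sin (2 * Real.pi * u) / (2 * Real.pi))
      (2 * Real.sin (Real.pi * u) ^ 2) u := by
    intro u _
    have e1 := ((Real.hasDerivAt_sin (2 * Real.pi * u)).comp u ((hasDerivAt_id u).const_mul (2 * Real.pi))).div_const
      (2 * Real.pi)
    refine ((hasDerivAt_id u).sub e1).congr_deriv ?_
    have e2 : Real.cos (2 * Real.pi * u) = 1 - 2 * Real.sin (Real.pi * u) ^ 2 := by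
      rw [mul_assoc, Real.cos_two_mul']
      have := Real.sin_sq_add_cos_sq (Real.pi * u)
      linarith
    have := Real.pi_ne_zero
    rw [e2]
    simp only [mul_one]
    field_simp
    ring
  rw [intervalIntegral.integral_eq_sub_of_hasDerivAt h1]
  · simp
  · apply Continuous.intervalIntegrable
    fun_prop

theorem satoTate_one : satoTate 1 = 1 := by
  rw [satoTate_eq]
  unfold sF
  rw [mul_one, Real.sin_two_pi]
  simp

theorem angle_lt {a b : ℤ} {x : ℕ → ℝ} (hx : IsAngles a b x) (k : ℕ) : x k < 1 := by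
  obtain ⟨h1, h2, h3, h4⟩ := hx k
  by_cases hg : GoodPrime a b (Nat.nth Nat.Prime k)
  · refine lt_of_le_of_ne h2 fun h => ?_
    have h5 := h3 hg
    rw [h, mul_one, Real.cos_pi] at h5
    have h6 := (hg.1).irrational_sqrt
    apply h6
    refine ⟨((pointCount a b (Nat.nth Nat.Prime k) : ℚ) - (Nat.nth Nat.Prime k : ℕ)) / 2, ?_⟩
    push_cast
    linarith
  · rw [h4 hg]
    norm_num

theorem finite_bad {a b : ℤ} (hΔ : 4 * a ^ 3 + 27 * b ^ 2 ≠ 0) :
    {p : ℕ | p.Prime ∧ p ∉ {p : ℕ | GoodPrime a b p}}.Finite := by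
  have h0 : (2 * (-4 * a ^ 3 - 27 * b ^ 2) : ℤ) ≠ 0 := by
    intro h
    apply hΔ
    linarith
  refine (Set.finite_Iic (2 * (-4 * a ^ 3 - 27 * b ^ 2) : ℤ).natAbs).subset ?_
  rintro p ⟨hp, hb⟩
  rw [Set.mem_ofPred_eq] at hb
  unfold GoodPrime at hb
  have h1 : (p : ℤ) ∣ 2 * (-4 * a ^ 3 - 27 * b ^ 2) := by
    by_contra h
    exact hb ⟨hp, h⟩
  rw [Set.mem_Iic]
  exact Nat.le_of_dvd (Int.natAbs_pos.2 h0) (Int.natCast_dvd.1 h1)

/-- the one-dimensional count -/
theorem boxCount_update {a b : ℤ} {x : ℕ → ℝ} (hx : IsAngles a b x) {s : ℕ} (hs : 1 ≤ s) (w : ℝ) (K : ℕ) :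
    boxCount x (fun i : Fin s => if i = ⟨0, hs⟩ then w else 1) K = cnt x w K := by
  classical
  unfold boxCount cnt
  congr 1
  ext k
  simp only [Finset.mem_filter, Finset.mem_range]
  refine and_congr_right fun _ => ?_
  constructor
  · intro h
    simpa using h ⟨0, hs⟩
  · intro h i
    by_cases hi : i = ⟨0, hs⟩
    · rw [if_pos hi, hi]
      simpa using h
    · rw [if_neg hi]
      exact angle_lt hx _

theorem prod_update {s : ℕ} (hs : 1 ≤ s) (w : ℝ) :
    ∏ i : Fin s, satoTate (if i = ⟨0, hs⟩ then w else 1) = satoTate w := by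
  rw [Finset.prod_eq_single (⟨0, hs⟩ : Fin s)]
  · rw [if_pos rfl]
  · intro i _ hi
    rw [if_neg hi, satoTate_one]
  · intro h
    exact absurd (Finset.mem_univ _) h

open Classical in
theorem hasProd_sub {G : ℕ → Prop} {g h : ℕ → ℂ} {y : ℂ}
    (H : HasProd (fun p : ℕ => if G p then g p else 1) y) (hgh : ∀ p, G p → g p = h p) :
    HasProd (fun p : {p : ℕ | G p} => h (p : ℕ)) y := by
  rw [show (fun p : {p : ℕ | G p} => h (p : ℕ)) = h ∘ Subtype.val from rfl,
    hasProd_subtype_iff_mulIndicator]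
  convert H using 1
  funext p
  by_cases hp : G p
  · rw [Set.mulIndicator_of_mem (show p ∈ {p | G p} from hp), if_pos hp, hgh p hp]
  · rw [Set.mulIndicator_of_notMem (show p ∉ {p | G p} from hp), if_neg hp]

/-- the Euler factor of the curve -/
theorem factor_eq {a b : ℤ} {x : ℕ → ℝ} (hx : IsAngles a b x) {p : ℕ} (hp : GoodPrime a b p) (z : ℂ) :
    (1 - ((p : ℂ) - (pointCount a b p : ℂ)) * (p : ℂ) ^ (-(z + 1 / 2)) + (p : ℂ) ^ (1 - 2 * (z + 1 / 2)))⁻¹ =
      ∏ i, (1 - al x 1 p i * (p : ℂ) ^ (-z))⁻¹ := by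
  have hk : Nat.nth Nat.Prime (Nat.count Nat.Prime p) = p := Nat.nth_count hp.1
  obtain ⟨h1, h2, h3, -⟩ := hx (Nat.count Nat.Prime p)
  rw [hk] at h3
  have h4 := h3 hp
  set θ : ℝ := Real.pi * x (Nat.count Nat.Prime p) with hθ
  have hp0 : (0 : ℝ) < p := by exact_mod_cast hp.1.pos
  have hpc : (p : ℂ) ≠ 0 := by exact_mod_cast hp.1.ne_zero
  have e1 : (p : ℂ) - (pointCount a b p : ℂ) = ((2 * Real.sqrt p * Real.cos θ : ℝ) : ℂ) := by
    rw [← h4]
    push_cast
    rfl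
  have e2 : (p : ℂ) ^ (-(z + 1 / 2)) = (p : ℂ) ^ (-z) * (p : ℂ) ^ (-(1 / 2) : ℂ) := by
    rw [← Complex.cpow_add _ _ hpc]
    congr 1
    ring
  have e3 : (p : ℂ) ^ (1 - 2 * (z + 1 / 2)) = ((p : ℂ) ^ (-z)) ^ 2 := by
    rw [← Complex.cpow_nat_mul]
    congr 1
    push_cast
    ring
  have e4 : ((Real.sqrt p : ℝ) : ℂ) * (p : ℂ) ^ (-(1 / 2) : ℂ) = 1 := by
    rw [Real.sqrt_eq_rpow, Complex.ofReal_cpow hp0.le]
    push_cast
    rw [← Complex.cpow_add _ _ hpc]
    simp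
  have e5 : al x 1 p 0 = Complex.exp (θ * Complex.I) := by
    unfold al
    congr 1
    push_cast
    simp only [hθ]
    push_cast
    simp
  have e6 : al x 1 p 1 = Complex.exp (-θ * Complex.I) := by
    unfold al
    congr 1
    push_cast
    simp only [hθ]
    push_cast
    simp
    ring
  rw [Fin.prod_univ_two, e5, e6, ← mul_inv]
  congr 1
  have e7 : Complex.exp (θ * Complex.I) * Complex.exp (-θ * Complex.I) = 1 := by
    rw [← Complex.exp_add]
    simp
  have e8 : Complex.exp (θ * Complex.I) + Complex.exp (-θ * Complex.I) = ((2 * Real.cos θ : ℝ) : ℂ) := by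
    push_cast
    rw [Complex.cos]
    ring
  rw [e1, e2, e3]
  have e9 : ((2 * Real.sqrt p * Real.cos θ : ℝ) : ℂ) * ((p : ℂ) ^ (-z) * (p : ℂ) ^ (-(1 / 2) : ℂ)) =
      ((2 * Real.cos θ : ℝ) : ℂ) * (p : ℂ) ^ (-z) := by
    have : ((2 * Real.sqrt p * Real.cos θ : ℝ) : ℂ) = ((Real.sqrt p : ℝ) : ℂ) * ((2 * Real.cos θ : ℝ) : ℂ) := by
      push_cast; ring
    rw [this]
    linear_combination ((2 * Real.cos θ : ℝ) : ℂ) * (p : ℂ) ^ (-z) * e4
  rw [e9, ← e8]
  linear_combination (-((p : ℂ) ^ (-z)) ^ 2) * e7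

/-- Let `x` be the sequence of the Frobenius angles of an elliptic curve `y² = x³ + a x + b` over `ℚ`, `s ≥ 1`,
`δ > 0`, `c ≥ 1/2` and `C` real.

(1) If for arbitrarily large `Z` and all `K` with `Z^(1-δ) ≤ K ≤ Z` the proportion of the `k < K` with
`(x_k, ..., x_{k+s-1}) ∈ [0, w_0) × ... × [0, w_{s-1})` is at least the Sato-Tate measure of the box minus
`C K^(c-1)`, for all `w ∈ [0, 1]^s`, then the `L`-function of the curve has no zeros with real part
`> 1/2 + c`.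

(2) If for arbitrarily large `Z` and all `K` with `Z^(1-δ) ≤ K ≤ Z` the star discrepancy is at most `C K^(c-1)`,
then for every `m ≥ 1` the `L`-function of the symmetric power `m` has no zeros with real part `> c`. -/
theorem result (a b : ℤ) (hΔ : 4 * a ^ 3 + 27 * b ^ 2 ≠ 0) (x : ℕ → ℝ) (hx : IsAngles a b x)
    (s : ℕ) (hs : 1 ≤ s) (δ C c : ℝ) (hδ : 0 < δ) (hc : 1 / 2 ≤ c) :
    ((∃ᶠ Z : ℕ in atTop, ∀ K : ℕ, (Z : ℝ) ^ (1 - δ) ≤ K → K ≤ Z →
        ∀ w : Fin s → ℝ, (∀ i, 0 ≤ w i ∧ w i ≤ 1) →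
          ∏ i, satoTate (w i) - C * (K : ℝ) ^ (c - 1) ≤ (boxCount x w K : ℝ) / K) →
      ∀ F : ℂ → ℂ, IsLSeries a b F → ∀ z : ℂ, 1 / 2 + c < z.re → F z ≠ 0) ∧
    ((∃ᶠ Z : ℕ in atTop, ∀ K : ℕ, (Z : ℝ) ^ (1 - δ) ≤ K → K ≤ Z →
        ∀ w : Fin s → ℝ, (∀ i, 0 ≤ w i ∧ w i ≤ 1) →
          |(boxCount x w K : ℝ) / K - ∏ i, satoTate (w i)| ≤ C * (K : ℝ) ^ (c - 1)) →
      ∀ m : ℕ, 1 ≤ m → ∀ Φ : ℂ → ℂ, IsSymLSeries a b x m Φ → ∀ z : ℂ, c < z.re → Φ z ≠ 0) := by
  classical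
  have hT : ∀ p ∈ {p : ℕ | GoodPrime a b p}, p.Prime := fun p hp => hp.1
  have hx' : ∀ k, 0 ≤ x k ∧ x k ≤ 1 := fun k => ⟨(hx k).1, (hx k).2.1⟩
  have hpow : ∀ {K : ℕ}, 0 < K → (K : ℝ) ^ (c - 1) * K = (K : ℝ) ^ c := by
    intro K hK
    have : (0 : ℝ) < K := by exact_mod_cast hK
    rw [← Real.rpow_add_one this.ne', sub_add_cancel]
  have hZ0 : ∀ᶠ Z : ℕ in atTop, 1 ≤ Z := eventually_ge_atTop 1
  have hpos : ∀ {Z K : ℕ}, 1 ≤ Z → (Z : ℝ) ^ (1 - δ) ≤ K → 0 < K := by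
    intro Z K hZ hK
    have h1 : (0 : ℝ) < Z := by exact_mod_cast hZ
    have h2 : (0 : ℝ) < (Z : ℝ) ^ (1 - δ) := by positivity
    exact_mod_cast h2.trans_le hK
  have hw01 : ∀ {w : ℝ}, 0 ≤ w → w ≤ 1 → ∀ i : Fin s, 0 ≤ (if i = ⟨0, hs⟩ then w else 1 : ℝ) ∧
      (if i = ⟨0, hs⟩ then w else 1 : ℝ) ≤ 1 := by
    intro w hw0 hw1 i
    split_ifs
    · exact ⟨hw0, hw1⟩
    · norm_num
  constructor
  · intro h F hF z hz
    have hprod : ∀ w : ℂ, 1 < w.re → HasProd (fun p : {p : ℕ | GoodPrime a b p} =>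
        ∏ i, (1 - al x 1 (p : ℕ) i * ((p : ℕ) : ℂ) ^ (-w))⁻¹) (F (w + 1 / 2)) := by
      intro w hw
      have h1 := hF.2 (w + 1 / 2) (by
        rw [Complex.add_re]
        norm_num
        linarith)
      exact hasProd_sub (h := fun p : ℕ => ∏ i, (1 - al x 1 p i * (p : ℂ) ^ (-w))⁻¹) h1
        fun p hp => factor_eq hx hp w
    have hd : Differentiable ℂ fun w : ℂ => F (w + 1 / 2) := hF.1.comp (by fun_prop)
    have key := st_one hT (finite_bad hΔ) hx' hd hprod hc (δ := δ) (C := C) hδ ?_ (ρ := z - 1 / 2) (by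
      rw [Complex.sub_re]
      norm_num
      linarith)
    · simpa using key
    · refine (h.and_eventually hZ0).mono ?_
      rintro Z ⟨hZ, hZ1⟩ K hK1 hK2 w hw0 hw1
      have hK : 0 < K := hpos hZ1 hK1
      have hKr : (0 : ℝ) < K := by exact_mod_cast hK
      have h1 := hZ K hK1 hK2 (fun i => if i = ⟨0, hs⟩ then w else 1) (hw01 hw0 hw1)
      rw [prod_update hs, boxCount_update hx hs, satoTate_eq, le_div_iff₀ hKr, sub_mul, mul_assoc, hpow hK] at h1
      linarith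
  · intro h m hm Φ hΦ z hz
    have hprod : ∀ w : ℂ, 1 < w.re → HasProd (fun p : {p : ℕ | GoodPrime a b p} =>
        ∏ i, (1 - al x m (p : ℕ) i * ((p : ℕ) : ℂ) ^ (-w))⁻¹) (Φ w) := by
      intro w hw
      refine hasProd_sub (h := fun p : ℕ => ∏ i, (1 - al x m p i * (p : ℂ) ^ (-w))⁻¹) (hΦ.2 w hw) fun p _ => ?_
      rw [Finset.prod_range]
      refine Finset.prod_congr rfl fun i _ => ?_
      unfold al
      congr 4
      push_cast
      ring
    refine st_two hT (finite_bad hΔ) hx' hm hΦ.1 hprod hc (δ := δ) (C := C) hδ ?_ hz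
    refine (h.and_eventually hZ0).mono ?_
    rintro Z ⟨hZ, hZ1⟩ K hK1 hK2 w hw0 hw1
    have hK : 0 < K := hpos hZ1 hK1
    have hKr : (0 : ℝ) < K := by exact_mod_cast hK
    have h1 := hZ K hK1 hK2 (fun i => if i = ⟨0, hs⟩ then w else 1) (hw01 hw0 hw1)
    rw [prod_update hs, boxCount_update hx hs, satoTate_eq] at h1
    have h2 : (cnt x w K : ℝ) - K * sF w = ((cnt x w K : ℝ) / K - sF w) * K := by
      field_simp
    rw [h2, abs_mul, abs_of_pos hKr]
    calc |(cnt x w K : ℝ) / K - sF w| * K ≤ C * (K : ℝ) ^ (c - 1) * K := by gcongr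
      _ = C * (K : ℝ) ^ c := by rw [mul_assoc, hpow hK]

end Pool.Agent.Results.MP_29be01_nt.SequenceOfWindows
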